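import Pool.Agent.Helper70.BI.HH.StHE
import Pool.Agent.Helper18.BI.M_X2

/-!
# Project BI, stage 7 (H), module CHV (2-cocycles on the complement of the fixed cuff in the 4-sphere)
-/

set_option autoImplicit false

open scoped Topology unitInterval Manifold ContDiff
open Set Pool.Agent.Helper65.Barb Pool.Agent.Helper18.BI
open Pool.Agent.Helper34.S5 (Off)

namespace Pool.Agent.Helper70.HH

namespace CHV

/-- the closed unit square in the plane -/
def P : Set (ℝ × ℝ) := Icc (0 : ℝ) 1 ×ˢ Icc (0 : ℝ) 1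

/-- its boundary -/
def P₀ : Set (ℝ × ℝ) := {z | z ∈ P ∧ (z.1 = 0 ∨ z.1 = 1 ∨ z.2 = 0 ∨ z.2 = 1)}

theorem isCompact_P : IsCompact P := isCompact_Icc.prod isCompact_Icc

/-- the square in the plane -/
def em (z : I × I) : ℝ × ℝ := ((z.1 : ℝ), (z.2 : ℝ))

theorem em_mem (z : I × I) : em z ∈ P := ⟨z.1.2, z.2.2⟩

theorem continuous_em : Continuous em :=
  (continuous_subtype_val.comp continuous_fst).prodMk (continuous_subtype_val.comp continuous_snd)

/-- `S` extended to the plane -/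
noncomputable def ex {A : Set S4} (S : C(I × I, {x : S4 // x ∉ A})) (z : ℝ × ℝ) : S4 :=
  (S (projIcc 0 1 zero_le_one z.1, projIcc 0 1 zero_le_one z.2) : S4)

theorem continuous_ex {A : Set S4} (S : C(I × I, {x : S4 // x ∉ A})) : Continuous (ex S) := by
  unfold ex
  exact continuous_subtype_val.comp (S.continuous.comp
    ((continuous_projIcc.comp continuous_fst).prodMk (continuous_projIcc.comp continuous_snd)))

theorem ex_em {A : Set S4} (S : C(I × I, {x : S4 // x ∉ A})) (z : I × I) :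
    ex S (em z) = (S z : S4) := by
  unfold ex em
  rw [projIcc_val, projIcc_val]

/-- a family of squares is homotopic to a Lipschitz one -/
theorem step1 (hLIP : Pool.Agent.Helper18.BI.R.StLIP) {A : Set S4} (hA : IsCompact A)
    {V : Type} [AddCommGroup V] {a : C(I × I, {x : S4 // x ∉ A}) → V}
    {v : C(I, {x : S4 // x ∉ A}) → V} (hco : IsCoc {x : S4 // x ∉ A} V a v)
    (S : C(I × I, {x : S4 // x ∉ A})) (y : {x : S4 // x ∉ A})
    (hy : ∀ s t, (s = 0 ∨ s = 1 ∨ t = 0 ∨ t = 1) → S (s, t) = y) :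
    ∃ (g : ℝ × ℝ → S4) (S' : C(I × I, {x : S4 // x ∉ A})),
      (∃ L : NNReal, LipschitzOnWith L g P) ∧ (∀ z, (S' z : S4) = g (em z)) ∧
      (∀ s t, (s = 0 ∨ s = 1 ∨ t = 0 ∨ t = 1) → S' (s, t) = y) ∧ a S = a S' := by
  have hbd : ∀ z ∈ P₀, ex S z = (y : S4) := by
    rintro z ⟨hz, hz'⟩
    have e1 : z = em (⟨z.1, hz.1⟩, ⟨z.2, hz.2⟩) := rfl
    rw [e1, ex_em]
    refine congrArg Subtype.val (hy _ _ ?_)
    rcases hz' with h | h | h | h
    · exact Or.inl (Subtype.ext h)
    · exact Or.inr (Or.inl (Subtype.ext h))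
    · exact Or.inr (Or.inr (Or.inl (Subtype.ext h)))
    · exact Or.inr (Or.inr (Or.inr (Subtype.ext h)))
  obtain ⟨g, H, hgL, hHc, hH01, hHA, hH0⟩ := hLIP (ℝ × ℝ) P P₀ A (ex S) isCompact_P
    (fun z hz => hz.1) hA (continuous_ex S).continuousOn
    ⟨0, fun z hz w hw => by
      rw [hbd z hz, hbd w hw, edist_self]
      exact bot_le⟩
    (fun z _ => (S (projIcc 0 1 zero_le_one z.1, projIcc 0 1 zero_le_one z.2)).2)
  let C : C(I × (I × I), {x : S4 // x ∉ A}) :=
    ⟨fun w => ⟨H ((w.1 : ℝ), em w.2), hHA _ w.1.2 _ (em_mem _)⟩, by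
      refine Continuous.subtype_mk ?_ _
      refine hHc.comp_continuous ((continuous_subtype_val.comp continuous_fst).prodMk
        (continuous_em.comp continuous_snd)) fun w => ⟨w.1.2, em_mem _⟩⟩
  have h0 : C.comp (fx 0) = S := by
    refine ContinuousMap.ext fun z => Subtype.ext ?_
    show H (0, em z) = (S z : S4)
    rw [(hH01 _ (em_mem z)).1, ex_em]
  have hP0 : ∀ s t : I, (s = 0 ∨ s = 1 ∨ t = 0 ∨ t = 1) → em (s, t) ∈ P₀ := by
    intro s t h
    refine ⟨em_mem _, ?_⟩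
    rcases h with h | h | h | h
    · exact Or.inl (congrArg Subtype.val h)
    · exact Or.inr (Or.inl (congrArg Subtype.val h))
    · exact Or.inr (Or.inr (Or.inl (congrArg Subtype.val h)))
    · exact Or.inr (Or.inr (Or.inr (congrArg Subtype.val h)))
  have hC : ∀ u s t : I, (s = 0 ∨ s = 1 ∨ t = 0 ∨ t = 1) → C (u, (s, t)) = y := by
    intro u s t h
    refine Subtype.ext ?_
    show H ((u : ℝ), em (s, t)) = (y : S4)
    rw [hH0 _ u.2 _ (hP0 s t h), hbd _ (hP0 s t h)]
  have hy0 : C.comp (fy 0) = ContinuousMap.const _ y :=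
    ContinuousMap.ext fun z => hC z.1 0 z.2 (Or.inl rfl)
  have hy1 : C.comp (fy 1) = ContinuousMap.const _ y :=
    ContinuousMap.ext fun z => hC z.1 1 z.2 (Or.inr (Or.inl rfl))
  have hz0 : C.comp (fz 0) = ContinuousMap.const _ y :=
    ContinuousMap.ext fun z => hC z.1 z.2 0 (Or.inr (Or.inr (Or.inl rfl)))
  have hz1 : C.comp (fz 1) = ContinuousMap.const _ y :=
    ContinuousMap.ext fun z => hC z.1 z.2 1 (Or.inr (Or.inr (Or.inr rfl)))
  refine ⟨g, C.comp (fx 1), hgL, fun z => ?_, fun s t h => hC 1 s t h, ?_⟩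
  · show H (1, em z) = g (em z)
    exact (hH01 _ (em_mem z)).2
  · have h := hco.cube C
    rw [h0, hy0, hy1, hz0, hz1] at h
    have h' : a (C.comp (fx 1)) - a S = 0 := by
      rw [← h]
      abel
    exact (sub_eq_zero.1 h').symm

theorem isCompact_A (B : PartialDiffeomorph 𝓘(ℝ, R4) (𝓡 4) R4 S4 ∞) (h : SP ⊆ B.source) :
    IsCompact (B '' sph 1) := by
  have h1 : IsCompact (sph 1) := by
    refine X2.isCompact_SP.of_isClosed_subset ?_ fun p hp => Or.inl (Or.inr hp)
    exact (isClosed_eq continuous_fst continuous_const).inter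
      (isClosed_eq (continuous_rsq 1) continuous_const)
  exact h1.image_of_continuousOn
    (B.contMDiffOn_toFun.continuousOn.mono fun p hp => h (Or.inl (Or.inr hp)))

/-- the image of the square is small -/
theorem step2 (hDIM : Pool.Agent.Helper18.BI.R.StDIM) {g : ℝ × ℝ → S4}
    (hg : ∃ L : NNReal, LipschitzOnWith L g P) :
    ∃ Q : Set S4, IsCompact Q ∧ interior Q = ∅ ∧ ∀ z ∈ P, g z ∈ Q := by
  obtain ⟨L, hL⟩ := hg
  have h := hDIM (fun w => g w.2) (Icc (0 : ℝ) 1 ×ˢ P) (isCompact_Icc.prod isCompact_P)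
    ⟨L, fun w hw w' hw' => (hL hw.2 hw'.2).trans
      (mul_le_mul_right (le_max_right (edist w.1 w'.1) (edist w.2 w'.2)) _)⟩
  exact ⟨_, h.1, h.2, fun z hz => ⟨(0, z), ⟨⟨le_rfl, zero_le_one⟩, hz⟩, rfl⟩⟩

end CHV

open CHV in
theorem m_CHV (hLIP : Pool.Agent.Helper18.BI.R.StLIP) (hDIM : Pool.Agent.Helper18.BI.R.StDIM)
    (hX2c : Pool.Agent.Helper70.BI.StX2c) (hX3 : StX3) (hMVU : StMVU) (hMVF : StMVF) :
    StCHV := by
  intro B hB A hA V _ a v hco S y hy
  have hAc : IsCompact A := by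
    rw [hA]
    exact isCompact_A B hB
  obtain ⟨g, S', hgL, hS', hS'y, haS⟩ := step1 hLIP hAc hco S y hy
  obtain ⟨Q, hQc, hQi, hQ⟩ := step2 hDIM hgL
  have hcl := X2.closed_image B hB
  have hint : interior (B '' SP ∪ Q) = ∅ := by
    rw [interior_union_isClosed_of_interior_empty hcl hQi]
    exact X2.interior_image B hB
  obtain ⟨c, hc, hcr⟩ := hX2c (B '' SP ∪ Q) (hcl.union hQc.isClosed).isCompact hint
  have hBE : EmbOn (𝓡 4) B SP :=
    ⟨fun p hp => ⟨B, hB hp, fun q _ => rfl⟩, B.toPartialEquiv.injOn.mono hB⟩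
  obtain ⟨hG, U, hU, hSU, h2⟩ := hX3 (EuclideanSpace ℝ (Fin 4)) (EuclideanSpace ℝ (Fin 4)) (𝓡 4) S4
    c B SP hc hBE (subset_union_left.trans hcr)
  have hld : IsLocalDiffeomorph 𝓘(ℝ, R4) (𝓡 4) ∞ c := fun p => hc.1 p (mem_univ _)
  have hinj : Function.Injective c := fun p q h => hc.2 (mem_univ _) (mem_univ _) h
  have hoe := hld.isLocalHomeomorph.isOpenEmbedding_of_injective hinj
  set G : R4 → R4 := fun p => Function.invFun c (B p) with hGd
  have hK : ∀ x, x ∈ G '' sph 1 ↔ c x ∈ A := by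
    intro x
    rw [hA]
    constructor
    · rintro ⟨p, hp, rfl⟩
      exact ⟨p, hp, (h2 p (hSU (Or.inl (Or.inr hp)))).symm⟩
    · rintro ⟨p, hp, he⟩
      exact ⟨p, hp, hinj ((h2 p (hSU (Or.inl (Or.inr hp)))).trans he)⟩
  have hKcl : IsClosed (G '' sph 1) := by
    have e : G '' sph 1 = c ⁻¹' A := ext fun x => hK x
    rw [e]
    exact hAc.isClosed.preimage hoe.continuous
  obtain ⟨N, ρ, hNo, hKN, hρ, hρK, hU'⟩ := hMVU G hG
  let c' : C(Off (G '' sph 1), {x : S4 // x ∉ A}) :=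
    ⟨fun x => ⟨c x.1, fun h => x.2 ((hK _).2 h)⟩,
      (hoe.continuous.comp continuous_subtype_val).subtype_mk _⟩
  have hco' : IsCoc (Off (G '' sph 1)) V (fun T => a (c'.comp T)) (fun e => v (c'.comp e)) :=
    ⟨fun C => hco.cube (c'.comp C), fun T => hco.sdh (c'.comp T), fun T => hco.sdv (c'.comp T)⟩
  have hcg : ∀ z : I × I, c (Function.invFun c (g (em z))) = g (em z) := fun z =>
    Function.invFun_eq (hcr (Or.inr (hQ _ (em_mem z))))
  let S'' : C(I × I, Off (G '' sph 1)) :=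
    ⟨fun z => ⟨Function.invFun c (g (em z)), fun h => by
        have h1 := (hK _).1 h
        rw [hcg z, ← hS' z] at h1
        exact (S' z).2 h1⟩, by
      refine Continuous.subtype_mk ?_ _
      rw [hoe.toIsEmbedding.continuous_iff]
      have e : c ∘ (fun z : I × I => Function.invFun c (g (em z))) = fun z => (S' z : S4) := by
        funext z
        show c (Function.invFun c (g (em z))) = _
        rw [hcg z, hS' z]
      rw [e]
      exact continuous_subtype_val.comp S'.continuous⟩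
  have hS'' : c'.comp S'' = S' := by
    refine ContinuousMap.ext fun z => Subtype.ext ?_
    show c (Function.invFun c (g (em z))) = _
    rw [hcg z, hS' z]
  have hbd : ∀ s t : I, (s = 0 ∨ s = 1 ∨ t = 0 ∨ t = 1) → S'' (s, t) = S'' (0, 0) := by
    intro s t h
    refine Subtype.ext ?_
    show Function.invFun c (g (em (s, t))) = Function.invFun c (g (em (0, 0)))
    rw [← hS', ← hS', hS'y s t h, hS'y 0 0 (Or.inl rfl)]
  have key := hMVF (G '' sph 1) N ρ hKcl hNo hKN hρ hρK V (fun T => a (c'.comp T))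
    (fun e => v (c'.comp e)) hco' (hU' V _ _ hco') S'' (S'' (0, 0)) hbd
  have hk : c'.comp (ContinuousMap.const (I × I) (S'' (0, 0))) = ContinuousMap.const _ y := by
    refine ContinuousMap.ext fun z => ?_
    show c' (S'' (0, 0)) = y
    have := congrArg (fun T : C(I × I, {x : S4 // x ∉ A}) => T (0, 0)) hS''
    exact this.trans (hS'y 0 0 (Or.inl rfl))
  have key' : a (c'.comp S'') = a (c'.comp (ContinuousMap.const (I × I) (S'' (0, 0)))) := key
  rw [hS'', hk] at key'
  rw [haS, key']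

end Pool.Agent.Helper70.HH
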